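import Pool.Agent.H60.GQ.Counts

/-!
Project GQS (MP_a3aa3c_co), helper80. No generalized quadrangle of order `(s, s^2 - s)`, `s ≥ 3`.

Module Base: real valued incidence and adjacency functions, balanced functions.
-/

namespace H80GQ

open H60GQ Finset
open scoped Classical

universe u v

variable {P : Type u} {L : Type v} {I : P → L → Prop} {s t : ℕ}

/-- adjacency (collinear and distinct) as a real number -/
noncomputable def ad (I : P → L → Prop) (x y : P) : ℝ := if x ≠ y ∧ Col I x y then 1 else 0

/-- incidence as a real number -/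
noncomputable def io (I : P → L → Prop) (x : P) (l : L) : ℝ := if I x l then 1 else 0

/-- equality as a real number -/
noncomputable def dl (x y : P) : ℝ := if x = y then 1 else 0

/-- the matrix `(s^2 - 1) - (s + 1) A + J` -/
noncomputable def GG (I : P → L → Prop) (s : ℕ) (x y : P) : ℝ :=
  ((s : ℝ) ^ 2 - 1) * dl x y - ((s : ℝ) + 1) * ad I x y + 1

/-- the sum over each line is zero -/
def Bal [Fintype P] (I : P → L → Prop) (f : P → ℝ) : Prop := ∀ l, ∑ q, io I q l * f q = 0

theorem dl_self (x : P) : dl x x = 1 := by unfold dl; rw [if_pos rfl]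

theorem dl_comm (x y : P) : dl x y = dl y x := by
  unfold dl
  by_cases h : x = y
  · rw [if_pos h, if_pos h.symm]
  · rw [if_neg h, if_neg (fun e => h e.symm)]

theorem dl_ne {x y : P} (h : x ≠ y) : dl x y = 0 := by unfold dl; rw [if_neg h]

theorem ad_self (x : P) : ad I x x = 0 := by
  unfold ad
  rw [if_neg (fun e => e.1 rfl)]

theorem ad_comm (x y : P) : ad I x y = ad I y x := by
  unfold ad
  have e : (x ≠ y ∧ Col I x y) ↔ (y ≠ x ∧ Col I y x) := by rw [col_comm, ne_comm]
  by_cases hc : x ≠ y ∧ Col I x y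
  · rw [if_pos hc, if_pos (e.1 hc)]
  · rw [if_neg hc, if_neg (fun h => hc (e.2 h))]

theorem ad_pos {x y : P} (h1 : x ≠ y) (h2 : Col I x y) : ad I x y = 1 := by
  unfold ad; rw [if_pos ⟨h1, h2⟩]

theorem ad_neg {x y : P} (h : ¬ Col I x y) : ad I x y = 0 := by
  unfold ad; rw [if_neg (fun e => h e.2)]

theorem io_pos {x : P} {l : L} (h : I x l) : io I x l = 1 := by unfold io; rw [if_pos h]

theorem io_neg {x : P} {l : L} (h : ¬ I x l) : io I x l = 0 := by unfold io; rw [if_neg h]

theorem io_or (x : P) (l : L) : io I x l = 0 ∨ io I x l = 1 := by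
  unfold io; split_ifs <;> simp

theorem GG_comm (x y : P) : GG I s x y = GG I s y x := by
  unfold GG; rw [dl_comm, ad_comm]

private theorem conv {α : Type*} [Fintype α] (p : α → Prop) :
    ∑ x, (if p x then (1 : ℝ) else 0) = (({x | p x}.ncard : ℕ) : ℝ) := by
  rw [Set.ncard_eq_toFinset_card', Set.toFinset_ofPred, Finset.sum_boole]

theorem sum_dl [Fintype P] (x : P) (f : P → ℝ) : ∑ z, dl x z * f z = f x := by
  unfold dl
  simp

theorem sum_io_pt [Fintype P] (h : IsGQ I s t) (l : L) : ∑ q, io I q l = (s : ℝ) + 1 := by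
  unfold io
  rw [conv, h.line_card]
  push_cast; ring

theorem sum_io_ln [Fintype L] (h : IsGQ I s t) (x : P) : ∑ l, io I x l = (t : ℝ) + 1 := by
  unfold io
  rw [conv, h.point_card]
  push_cast; ring

/-- `N Nᵀ = A + (t + 1)` -/
theorem sum_io_io [Fintype L] (h : IsGQ I s t) (x z : P) :
    ∑ l, io I x l * io I z l = ad I x z + ((t : ℝ) + 1) * dl x z := by
  by_cases hxz : x = z
  · subst hxz
    rw [ad_self, dl_self, zero_add, mul_one, ← sum_io_ln h x]
    refine Finset.sum_congr rfl (fun l _ => ?_)
    rcases io_or (I := I) x l with e | e <;> rw [e] <;> norm_num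
  · rw [dl_ne hxz, mul_zero, add_zero]
    by_cases hc : Col I x z
    · rw [ad_pos hxz hc]
      obtain ⟨m, h1, h2⟩ := hc
      rw [Finset.sum_eq_single m]
      · rw [io_pos h1, io_pos h2]; norm_num
      · intro l _ hl
        by_cases e1 : I x l
        · by_cases e2 : I z l
          · exact absurd (h.unique x z l m hxz e1 e2 h1 h2) hl
          · rw [io_neg e2, mul_zero]
        · rw [io_neg e1, zero_mul]
      · intro hm; exact absurd (Finset.mem_univ m) hm
    · rw [ad_neg hc]
      refine Finset.sum_eq_zero (fun l _ => ?_)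
      by_cases e1 : I x l
      · by_cases e2 : I z l
        · exact absurd ⟨l, e1, e2⟩ hc
        · rw [io_neg e2, mul_zero]
      · rw [io_neg e1, zero_mul]

/-- number of points of a line adjacent to a given point -/
theorem sum_io_ad [Fintype P] (h : IsGQ I s t) (l : L) (y : P) :
    ∑ q, io I q l * ad I q y = 1 + ((s : ℝ) - 1) * io I y l := by
  by_cases hy : I y l
  · rw [io_pos hy]
    have e : ∀ q, io I q l * ad I q y = io I q l - dl y q := by
      intro q
      by_cases hq : q = y
      · subst hq; rw [ad_self, dl_self, io_pos hy]; norm_num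
      · rw [dl_ne (fun e => hq e.symm)]
        by_cases hql : I q l
        · rw [ad_pos hq ⟨l, hql, hy⟩]; ring
        · rw [io_neg hql]; ring
    rw [Finset.sum_congr rfl (fun q _ => e q), Finset.sum_sub_distrib, sum_io_pt h l]
    have := sum_dl y (fun _ => (1 : ℝ))
    simp only [mul_one] at this
    rw [this]; ring
  · rw [io_neg hy]
    obtain ⟨q, ⟨h1, h2⟩, hu⟩ := h.exists_unique_col hy
    rw [Finset.sum_eq_single q]
    · have hqy : q ≠ y := by rintro rfl; exact hy h1
      rw [io_pos h1, ad_pos hqy h2.symm]; ring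
    · intro b _ hb
      by_cases e1 : I b l
      · rw [ad_neg (fun e2 => hb (hu b ⟨e1, e2.symm⟩)), mul_zero]
      · rw [io_neg e1, zero_mul]
    · intro hq; exact absurd (Finset.mem_univ q) hq

theorem Bal.sum_ad [Fintype P] [Fintype L] (h : IsGQ I s t) {f : P → ℝ} (hf : Bal I f) (x : P) :
    ∑ z, ad I x z * f z = -((t : ℝ) + 1) * f x := by
  have e : ∀ z, ad I x z * f z = ∑ l, io I x l * (io I z l * f z)
      - ((t : ℝ) + 1) * (dl x z * f z) := by
    intro z
    have h1 := sum_io_io h x z
    have h2 : ∑ l, io I x l * (io I z l * f z) = (∑ l, io I x l * io I z l) * f z := by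
      rw [Finset.sum_mul]
      exact Finset.sum_congr rfl (fun l _ => by ring)
    rw [h2, h1]; ring
  rw [Finset.sum_congr rfl (fun z _ => e z), Finset.sum_sub_distrib, ← Finset.mul_sum, sum_dl,
    Finset.sum_comm]
  have h3 : ∀ l, ∑ z, io I x l * (io I z l * f z) = 0 := by
    intro l
    rw [← Finset.mul_sum, hf l, mul_zero]
  rw [Finset.sum_congr rfl (fun l _ => h3 l), Finset.sum_const_zero]
  ring

theorem Bal.sum_all [Fintype P] [Fintype L] (h : IsGQ I s t) {f : P → ℝ} (hf : Bal I f) :
    ∑ z, f z = 0 := by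
  have h1 : ((t : ℝ) + 1) * ∑ z, f z = 0 := by
    rw [Finset.mul_sum]
    have e : ∀ z, ((t : ℝ) + 1) * f z = ∑ l, io I z l * f z := by
      intro z
      rw [← Finset.sum_mul, sum_io_ln h z]
    rw [Finset.sum_congr rfl (fun z _ => e z), Finset.sum_comm]
    exact Finset.sum_eq_zero (fun l _ => hf l)
  have h2 : ((t : ℝ) + 1) ≠ 0 := by positivity
  exact (mul_eq_zero.1 h1).resolve_left h2

theorem bal_GG [Fintype P] (h : IsGQ I s t) (y : P) : Bal I (fun q => GG I s q y) := by
  intro l
  have e : ∀ q, io I q l * GG I s q y = ((s : ℝ) ^ 2 - 1) * (dl y q * io I q l)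
      - ((s : ℝ) + 1) * (io I q l * ad I q y) + io I q l := by
    intro q
    unfold GG
    rw [dl_comm q y]; ring
  simp only [e, Finset.sum_add_distrib, Finset.sum_sub_distrib, ← Finset.mul_sum]
  rw [sum_dl, sum_io_ad h, sum_io_pt h]
  ring

theorem Bal.sum_GG [Fintype P] [Fintype L] (h : IsGQ I s t) {f : P → ℝ} (hf : Bal I f) (x : P) :
    ∑ z, GG I s x z * f z = ((s : ℝ) + 1) * (s + t) * f x := by
  have e : ∀ z, GG I s x z * f z = ((s : ℝ) ^ 2 - 1) * (dl x z * f z)
      - ((s : ℝ) + 1) * (ad I x z * f z) + f z := by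
    intro z
    unfold GG
    ring
  simp only [e, Finset.sum_add_distrib, Finset.sum_sub_distrib, ← Finset.mul_sum]
  rw [sum_dl, hf.sum_ad h, hf.sum_all h]
  ring

/-- the diagonal weights `K_x` -/
noncomputable def kk (I : P → L → Prop) (s : ℕ) (x b : P) : ℝ := ad I x b - ((s : ℝ) - 2) * dl x b

/-- the key identity: `G K_x f = s (s + 1) f` on the points collinear with `x` -/
theorem Bal.sum_kk [Fintype P] [Fintype L] (h : IsGQ I s t) (hst : (t : ℝ) = s ^ 2 - s)
    {f : P → ℝ} (hf : Bal I f) (x a : P) (ha : Col I x a) :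
    ∑ b, GG I s a b * (kk I s x b * f b) = (s : ℝ) * (s + 1) * f a := by
  have e0 : ∀ b, GG I s a b * (kk I s x b * f b) =
      ad I x b * GG I s a b * f b - ((s : ℝ) - 2) * (dl x b * (GG I s a b * f b)) := by
    intro b; unfold kk; ring
  simp only [e0, Finset.sum_sub_distrib, ← Finset.mul_sum]
  rw [sum_dl]
  by_cases hxa : x = a
  · subst hxa
    have e : ∀ b, ad I x b * GG I s x b * f b = -(s : ℝ) * (ad I x b * f b) := by
      intro b
      unfold GG
      by_cases hb : x ≠ b ∧ Col I x b
      · rw [ad_pos hb.1 hb.2, dl_ne hb.1]; ring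
      · have : ad I x b = 0 := by unfold ad; rw [if_neg hb]
        rw [this]; ring
    simp only [e, ← Finset.mul_sum]
    rw [hf.sum_ad h]
    have e2 : GG I s x x = (s : ℝ) ^ 2 := by
      unfold GG; rw [dl_self, ad_self]; ring
    rw [e2, hst]; ring
  · obtain ⟨M, hxM, haM⟩ := ha
    have e : ∀ b, ad I x b * GG I s a b * f b = ad I x b * f b
        - ((s : ℝ) + 1) * (io I b M * f b) + ((s : ℝ) + 1) * (dl x b * f b)
        + ((s : ℝ) ^ 2 + s) * (dl a b * f b) := by
      intro b
      by_cases hxb : x = b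
      · subst hxb
        rw [ad_self, dl_self, io_pos hxM, dl_ne (fun e => hxa e.symm)]; ring
      · by_cases hab : a = b
        · subst hab
          rw [ad_pos hxa ⟨M, hxM, haM⟩, dl_self, io_pos haM, dl_ne hxb]
          unfold GG
          rw [dl_self, ad_self]; ring
        · rw [dl_ne hxb, dl_ne hab]
          by_cases hbM : I b M
          · rw [io_pos hbM, ad_pos hxb ⟨M, hxM, hbM⟩]
            unfold GG
            rw [dl_ne hab, ad_pos hab ⟨M, haM, hbM⟩]; ring
          · rw [io_neg hbM]
            by_cases hcb : Col I x b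
            · have : ¬ Col I a b := fun hc => hbM
                (h.mem_of_col hxa hxM haM hcb.symm hc.symm)
              rw [ad_pos hxb hcb]
              unfold GG
              rw [dl_ne hab, ad_neg this]; ring
            · rw [ad_neg hcb]; ring
    simp only [e, Finset.sum_add_distrib, Finset.sum_sub_distrib, ← Finset.mul_sum]
    rw [hf.sum_ad h, hf M, sum_dl, sum_dl]
    have e2 : GG I s a x = -(s : ℝ) := by
      unfold GG
      rw [dl_ne (fun e => hxa e.symm), ad_pos (fun e => hxa e.symm) ⟨M, haM, hxM⟩]; ring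
    rw [e2, hst]; ring

end H80GQ
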