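import Pool.Agent.H80.GQ.Tens

/-!
Project GQS (MP_a3aa3c_co), helper80. Module Final: the contradiction.
-/

namespace H80GQ

open H60GQ Finset Matrix
open scoped Classical

universe u v

variable {P : Type u} {L : Type v} [Fintype P] [Fintype L] {I : P → L → Prop} {s t : ℕ}

/-- entries of `H_x H_y H_x` -/
theorem HHH_entry (h : IsGQ I s t) (hst : (t : ℝ) = s ^ 2 - s) (hs : 1 ≤ s) (x y a b : P) :
    (Hm I s x * Hm I s y * Hm I s x) a b = ((s : ℝ) ^ 2 * (s + 1)) *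
      (((s : ℝ) ^ 2 * (s + 1)) * Hm I s x a b - s * Wm I s x y a b
        + s * ((s : ℝ) - 2) * (Hm I s x a y * Hm I s x y b)) := by
  have hs1 : (s : ℝ) ≠ 0 := by
    have : 0 < s := hs
    positivity
  have hs2 : (s : ℝ) + 1 ≠ 0 := by positivity
  have h1 : Hm I s x * Hm I s y * Hm I s x =
      ((s : ℝ) ^ 2 * (s + 1)) • (((s : ℝ) ^ 2 * (s + 1)) • Hm I s x) -
      (((s : ℝ) * (s + 1))⁻¹) • (((s : ℝ) ^ 2 * (s + 1)) • (((s : ℝ) ^ 2 * (s + 1)) •
        (Hm I s x * Km I s y * Hm I s x))) := by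
    conv_lhs => lhs; rhs; unfold Hm
    rw [Matrix.mul_sub, Matrix.mul_smul, H_G h hst, Matrix.sub_mul, Matrix.smul_mul,
      H_sq h hst hs]
    congr 1
    rw [Matrix.smul_mul]
    congr 1
    have h2 : Hm I s x * (Gm I s * Km I s y * Gm I s) * Hm I s x =
        (Hm I s x * Gm I s) * Km I s y * (Gm I s * Hm I s x) := by simp only [Matrix.mul_assoc]
    rw [h2, H_G h hst, G_H h hst, Matrix.smul_mul, Matrix.mul_smul, Matrix.smul_mul]
  have h3 : (Hm I s x * Km I s y * Hm I s x) a b =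
      Wm I s x y a b - ((s : ℝ) - 2) * (Hm I s x a y * Hm I s x y b) := by
    rw [Matrix.mul_assoc, Matrix.mul_apply]
    unfold Km
    simp only [Matrix.diagonal_mul]
    have e : ∀ u, Hm I s x a u * (kk I s y u * Hm I s x u b) =
        ad I y u * (Hm I s x a u * Hm I s x u b)
        - ((s : ℝ) - 2) * (dl y u * (Hm I s x a u * Hm I s x u b)) := by
      intro u; unfold kk; ring
    rw [Finset.sum_congr rfl (fun u _ => e u), Finset.sum_sub_distrib, ← Finset.mul_sum, sum_dl]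
    rfl
  rw [h1]
  simp only [Matrix.sub_apply, Matrix.smul_apply, smul_eq_mul]
  rw [h3]
  field_simp
  ring

/-- entries of `H_x H_y H_x`, in terms of the trilinear form -/
theorem HHH_entry' (h : IsGQ I s t) (hst : (t : ℝ) = s ^ 2 - s) (hs : 1 ≤ s) {x y : P}
    (hy : ¬ Col I x y) (a b : P) :
    (Hm I s x * Hm I s y * Hm I s x) a b = ((s : ℝ) ^ 2 * (s + 1)) *
      ((s : ℝ) * (s + 1) * Hm I s x a b - s * (Hm I s x a y * Hm I s x y b)
        + (s / ((s : ℝ) + 1)) * ∑ u, Hm I s x a u * Hm I s x u b * Hm I s x u y) := by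
  have hs2 : (s : ℝ) + 1 ≠ 0 := by positivity
  rw [HHH_entry h hst hs, trilin h hst hs hy]
  congr 1
  field_simp
  ring

theorem HHH_y (h : IsGQ I s t) (hst : (t : ℝ) = s ^ 2 - s) (hs : 1 ≤ s) {x y : P}
    (hy : ¬ Col I x y) (b : P) :
    (Hm I s x * Hm I s y * Hm I s x) y b = ((s : ℝ) ^ 2 * (s + 1)) *
      (((s : ℝ) ^ 2 - 1) * ((s : ℝ) - 1) * Hm I s x y b) := by
  have hs1 : (s : ℝ) ≠ 0 := by
    have : 0 < s := hs
    positivity
  have hs2 : (s : ℝ) + 1 ≠ 0 := by positivity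
  rw [HHH_entry' h hst hs hy, trilin_self h hst hs hy, Hm_self h hst hs hy]
  field_simp
  ring

theorem HHH_zz (h : IsGQ I s t) (hst : (t : ℝ) = s ^ 2 - s) (hs : 1 ≤ s) {x y z : P}
    (hy : ¬ Col I x y) (hz : ¬ Col I x z) (hyz : y ≠ z) (hc : Col I y z) :
    (Hm I s x * Hm I s y * Hm I s x) z z = ((s : ℝ) ^ 2 * (s + 1)) *
      (((s : ℝ) + 1) ^ 2 * ((s : ℝ) - 1) / s) := by
  have hs1 : (s : ℝ) ≠ 0 := by
    have : 0 < s := hs
    positivity
  have hs2 : (s : ℝ) + 1 ≠ 0 := by positivity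
  have e : ∑ u, Hm I s x z u * Hm I s x u z * Hm I s x u y =
      ((s : ℝ) + 1) ^ 2 * ((s : ℝ) - 2) * Hm I s x z y := by
    rw [← trilin_self h hst hs hz y]
    exact Finset.sum_congr rfl (fun u _ => by ring)
  have e1 : Hm I s x z y = -((s : ℝ) + 1) / s := by
    rw [Hm_comm]; exact Hm_adj h hst hs hy hz hyz hc
  rw [HHH_entry' h hst hs hy, e, Hm_comm x y z, e1, Hm_self h hst hs hz]
  field_simp
  ring

/-- the value of `H_x D_{N(y)} H_x` at the points adjacent to `y` -/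
theorem Wm_adj (h : IsGQ I s t) (hst : (t : ℝ) = s ^ 2 - s) (hs : 2 ≤ s) {x y z : P}
    (hy : ¬ Col I x y) (hz : ¬ Col I x z) (hyz : y ≠ z) (hc : Col I y z) (a : P) :
    Wm I s x y a z = (s : ℝ) * (s + 1) * Hm I s x a z + (((s : ℝ) + 1) / s) * Hm I s x a y := by
  have hs' : 1 ≤ s := by omega
  have hs1 : (s : ℝ) ≠ 0 := by
    have : 0 < s := hs'
    positivity
  have hs2 : (s : ℝ) + 1 ≠ 0 := by positivity
  have hs3 : (s : ℝ) - 1 ≠ 0 := by
    have : (2 : ℝ) ≤ s := by exact_mod_cast hs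
    linarith
  set M := Hm I s x * Hm I s y * Hm I s x with hM
  have hMt : ∀ a b, M a b = M b a := by
    intro a b
    have : Mᵀ = M := by
      rw [hM, Matrix.transpose_mul, Matrix.transpose_mul, Hm_transpose, Hm_transpose,
        Matrix.mul_assoc]
    have := congrFun (congrFun this b) a
    rw [Matrix.transpose_apply] at this
    exact this
  have hyz' : M y z = ((s : ℝ) ^ 2 * (s + 1)) *
      (((s : ℝ) ^ 2 - 1) * ((s : ℝ) - 1) * Hm I s x y z) := HHH_y h hst hs' hy z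
  have hyy' : M y y = ((s : ℝ) ^ 2 * (s + 1)) *
      (((s : ℝ) ^ 2 - 1) * ((s : ℝ) - 1) * Hm I s x y y) := HHH_y h hst hs' hy y
  have hzz' : M z z = ((s : ℝ) ^ 2 * (s + 1)) *
      (((s : ℝ) + 1) ^ 2 * ((s : ℝ) - 1) / s) := HHH_zz h hst hs' hy hz hyz hc
  rw [Hm_adj h hst hs' hy hz hyz hc] at hyz'
  rw [Hm_self h hst hs' hy] at hyy'
  set w : P → ℝ := ((s : ℝ) - 1) • Pi.single z 1 + Pi.single y 1 with hw
  have hMw : ∀ a, (M *ᵥ w) a = ((s : ℝ) - 1) * M a z + M a y := by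
    intro a
    rw [hw, Matrix.mulVec_add, Matrix.mulVec_smul, Matrix.mulVec_single_one,
      Matrix.mulVec_single_one]
    rfl
  have hform : w ⬝ᵥ M *ᵥ w = 0 := by
    rw [hw, add_dotProduct, smul_dotProduct, single_one_dotProduct, single_one_dotProduct,
      ← hw, hMw, hMw, hMt z y, smul_eq_mul, hyz', hyy', hzz']
    field_simp
    ring
  have h1 := HHH_zero h hst hs' x y w hform
  have h2 : M *ᵥ w = 0 := by
    rw [hM, Matrix.mul_assoc, ← Matrix.mulVec_mulVec, h1, Matrix.mulVec_zero]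
  have h3 := congrFun h2 a
  rw [hMw, Pi.zero_apply, hMt a y] at h3
  have h4 : M y a = ((s : ℝ) ^ 2 * (s + 1)) *
      (((s : ℝ) ^ 2 - 1) * ((s : ℝ) - 1) * Hm I s x y a) := HHH_y h hst hs' hy a
  have h5 : M a z = ((s : ℝ) ^ 2 * (s + 1)) *
      (((s : ℝ) ^ 2 * (s + 1)) * Hm I s x a z - s * Wm I s x y a z
        + s * ((s : ℝ) - 2) * (Hm I s x a y * Hm I s x y z)) := HHH_entry h hst hs' x y a z
  rw [h4, h5, Hm_adj h hst hs' hy hz hyz hc, Hm_comm x y a] at h3
  have h6 : ((s : ℝ) ^ 2 * (s + 1)) * ((s : ℝ) - 1) *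
      (((s : ℝ) ^ 2 * (s + 1)) * Hm I s x a z - s * Wm I s x y a z
        + s * ((s : ℝ) - 2) * (Hm I s x a y * (-((s : ℝ) + 1) / s))
        + ((s : ℝ) ^ 2 - 1) * Hm I s x a y) = 0 := by
    rw [← h3]; ring
  have h7 : ((s : ℝ) ^ 2 * (s + 1)) * ((s : ℝ) - 1) ≠ 0 :=
    mul_ne_zero (by positivity) hs3
  have h8 := (mul_eq_zero.1 h6).resolve_left h7
  have h9 : s * Wm I s x y a z = s * ((s : ℝ) * (s + 1) * Hm I s x a z
      + (((s : ℝ) + 1) / s) * Hm I s x a y) := by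
    have h10 : s * ((s : ℝ) - 2) * (Hm I s x a y * (-((s : ℝ) + 1) / s)) =
        -((s : ℝ) - 2) * (s + 1) * Hm I s x a y := by
      field_simp
    have h11 : s * ((s : ℝ) * (s + 1) * Hm I s x a z
      + (((s : ℝ) + 1) / s) * Hm I s x a y) =
      (s : ℝ) ^ 2 * (s + 1) * Hm I s x a z + (s + 1) * Hm I s x a y := by
      field_simp
    rw [h10] at h8
    rw [h11]
    linarith
  exact mul_left_cancel₀ hs1 h9

/-- the indicator of `N(y) \ x^⊥` -/
noncomputable def ch (I : P → L → Prop) (x y a : P) : ℝ := ad I y a * (1 - ad I x a)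

omit [Fintype P] [Fintype L] in
theorem ch_cases {x y : P} (hy : ¬ Col I x y) (a : P) :
    ch I x y a = 0 ∨ (ch I x y a = 1 ∧ ¬ Col I x a ∧ y ≠ a ∧ Col I y a) := by
  unfold ch
  by_cases h1 : y ≠ a ∧ Col I y a
  · have hxa : x ≠ a := by rintro rfl; exact hy h1.2.symm
    by_cases h2 : Col I x a
    · left; rw [ad_pos hxa h2]; ring
    · right
      refine ⟨?_, h2, h1.1, h1.2⟩
      rw [ad_neg h2, ad_pos h1.1 h1.2]; ring
  · left
    have : ad I y a = 0 := by unfold ad; rw [if_neg h1]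
    rw [this, zero_mul]

theorem sum_ch (h : IsGQ I s t) {x y : P} (hy : ¬ Col I x y) :
    ∑ a, ch I x y a = ((s : ℝ) - 1) * (t + 1) := by
  unfold ch
  have e : ∀ a, ad I y a * (1 - ad I x a) = ad I y a - ad I x a * ad I y a := by
    intro a; ring
  rw [Finset.sum_congr rfl (fun a _ => e a), Finset.sum_sub_distrib, sum_ad_one h,
    sum_ad_ad h hy]
  ring

theorem ch_H (h : IsGQ I s t) (hst : (t : ℝ) = s ^ 2 - s) (hs : 1 ≤ s) (x y a b : P) :
    ch I x y a * Hm I s x a b = ad I y a * Hm I s x a b := by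
  unfold ch
  by_cases h1 : Col I x a
  · rw [Hm_zero h hst hs h1]; ring
  · rw [ad_neg h1]; ring

/-- the projection matrix -/
noncomputable def Cm (I : P → L → Prop) (s : ℕ) (x y : P) : Matrix P P ℝ :=
  Matrix.of (fun a b => ((s : ℝ) * (s + 1))⁻¹ * (ch I x y a * ch I x y b *
    (Hm I s x a b - ((s : ℝ) + 1) / (s * (s - 1)))))

theorem Cm_sq (h : IsGQ I s t) (hst : (t : ℝ) = s ^ 2 - s) (hs : 2 ≤ s) {x y : P}
    (hy : ¬ Col I x y) : Cm I s x y * Cm I s x y = Cm I s x y := by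
  have hs' : 1 ≤ s := by omega
  have hs1 : (s : ℝ) ≠ 0 := by
    have : 0 < s := hs'
    positivity
  have hs2 : (s : ℝ) + 1 ≠ 0 := by positivity
  have hs3 : (s : ℝ) - 1 ≠ 0 := by
    have : (2 : ℝ) ≤ s := by exact_mod_cast hs
    linarith
  ext a b
  rw [Matrix.mul_apply]
  unfold Cm
  simp only [Matrix.of_apply]
  rcases ch_cases hy a with ha | ⟨ha, ha1, ha2, ha3⟩
  · rw [ha]; simp
  rcases ch_cases hy b with hb | ⟨hb, hb1, hb2, hb3⟩
  · rw [hb]; simp
  rw [ha, hb]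
  set al : ℝ := ((s : ℝ) + 1) / (s * (s - 1)) with hal
  set r : ℝ := ((s : ℝ) * (s + 1))⁻¹ with hr
  have e : ∀ u, r * (1 * ch I x y u * (Hm I s x a u - al)) *
      (r * (ch I x y u * 1 * (Hm I s x u b - al))) =
      r ^ 2 * (ad I y u * (Hm I s x a u * Hm I s x u b) - al * (ad I y u * Hm I s x u a)
        - al * (ad I y u * Hm I s x u b) + al ^ 2 * ch I x y u) := by
    intro u
    have h1 := ch_H h hst hs' x y u a
    have h2 := ch_H h hst hs' x y u b
    have h3 : ch I x y u * ch I x y u = ch I x y u := by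
      rcases ch_cases hy u with hu | ⟨hu, -⟩ <;> rw [hu] <;> norm_num
    rw [← h1, ← h2]
    have h4 : ad I y u * (Hm I s x a u * Hm I s x u b) =
        ch I x y u * (Hm I s x a u * Hm I s x u b) := by
      rw [Hm_comm x a u]
      calc ad I y u * (Hm I s x u a * Hm I s x u b) = (ad I y u * Hm I s x u a) * Hm I s x u b := by
            ring
        _ = ch I x y u * (Hm I s x u a * Hm I s x u b) := by rw [← h1]; ring
    rw [h4, Hm_comm x a u]
    calc r * (1 * ch I x y u * (Hm I s x u a - al)) *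
        (r * (ch I x y u * 1 * (Hm I s x u b - al)))
        = r ^ 2 * ((ch I x y u * ch I x y u) * ((Hm I s x u a - al) * (Hm I s x u b - al))) := by
          ring
      _ = _ := by rw [h3]; ring
  rw [Finset.sum_congr rfl (fun u _ => e u), ← Finset.mul_sum]
  simp only [Finset.sum_add_distrib, Finset.sum_sub_distrib, ← Finset.mul_sum]
  have h5 : ∑ u, ad I y u * (Hm I s x a u * Hm I s x u b) =
      (s : ℝ) * (s + 1) * Hm I s x a b + (((s : ℝ) + 1) / s) * Hm I s x a y :=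
    Wm_adj h hst hs hy hb1 hb2 hb3 a
  rw [h5, sum_ad_Hm h hst hs', sum_ad_Hm h hst hs', sum_ch h hy,
    Hm_comm x a y, Hm_adj h hst hs' hy ha1 ha2 ha3, Hm_adj h hst hs' hy hb1 hb2 hb3, hst, hr, hal]
  field_simp
  ring

theorem Cm_trace (h : IsGQ I s t) (hst : (t : ℝ) = s ^ 2 - s) (hs : 2 ≤ s) {x y : P}
    (hy : ¬ Col I x y) :
    s * (Cm I s x y).trace = ((s : ℝ) ^ 2 - s + 1) * (s - 2) := by
  have hs' : 1 ≤ s := by omega
  have hs1 : (s : ℝ) ≠ 0 := by
    have : 0 < s := hs'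
    positivity
  have hs2 : (s : ℝ) + 1 ≠ 0 := by positivity
  have hs3 : (s : ℝ) - 1 ≠ 0 := by
    have : (2 : ℝ) ≤ s := by exact_mod_cast hs
    linarith
  unfold Matrix.trace Cm
  have e : ∀ a, (Matrix.of (fun a b => ((s : ℝ) * (s + 1))⁻¹ * (ch I x y a * ch I x y b *
      (Hm I s x a b - ((s : ℝ) + 1) / (s * (s - 1)))))).diag a =
      ((s : ℝ) * (s + 1))⁻¹ * (((s : ℝ) ^ 2 - 1) / s - ((s : ℝ) + 1) / (s * (s - 1))) *
        ch I x y a := by
    intro a
    rw [Matrix.diag_apply, Matrix.of_apply]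
    rcases ch_cases hy a with ha | ⟨ha, ha1, ha2, ha3⟩
    · rw [ha]; ring
    · rw [ha, Hm_self h hst hs' ha1]; ring
  rw [Finset.sum_congr rfl (fun a _ => e a), ← Finset.mul_sum, sum_ch h hy, hst]
  field_simp
  ring

omit [Fintype L] in
/-- the trace of an idempotent matrix is a natural number -/
theorem trace_nat {M : Matrix P P ℝ} (hM : M * M = M) : ∃ n : ℕ, M.trace = n := by
  have h1 : IsIdempotentElem (Matrix.toLin' M) := by
    show Matrix.toLin' M * Matrix.toLin' M = Matrix.toLin' M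
    rw [Module.End.mul_eq_comp, ← Matrix.toLin'_mul, hM]
  refine ⟨Module.finrank ℝ (LinearMap.range (Matrix.toLin' M)), ?_⟩
  rw [← Matrix.trace_toLin'_eq]
  exact (LinearMap.IsIdempotentElem.isProj_range _ h1).trace

end H80GQ

namespace H80GQ

open H60GQ

/-- there is no generalized quadrangle of order `(s, s^2 - s)` with `s ≥ 3` -/
theorem no_gq {P : Type*} {L : Type*} [Finite P] [Finite L] [Nonempty P] (I : P → L → Prop)
    (s t : ℕ) (hs : 3 ≤ s) (hst : t + s = s ^ 2) (h : IsGQ I s t) : False := by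
  classical
  have := Fintype.ofFinite P
  have := Fintype.ofFinite L
  obtain ⟨x⟩ := (inferInstance : Nonempty P)
  have hst' : (t : ℝ) = s ^ 2 - s := by
    have : ((t + s : ℕ) : ℝ) = ((s ^ 2 : ℕ) : ℝ) := by rw [hst]
    push_cast at this
    linarith
  have ht : 0 < t := by nlinarith
  have hs0 : 0 < s := by omega
  have hne : {q | ¬ Col I x q}.ncard ≠ 0 := by
    rw [h.noncol_card]
    positivity
  obtain ⟨y, hy⟩ := Set.nonempty_of_ncard_ne_zero hne
  have hy' : ¬ Col I x y := hy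
  obtain ⟨n, hn⟩ := trace_nat (Cm_sq h hst' (by omega) hy')
  have h1 := Cm_trace h hst' (by omega) hy'
  rw [hn] at h1
  have h2 : (s : ℤ) * n = ((s : ℤ) ^ 2 - s + 1) * (s - 2) := by exact_mod_cast h1
  have h3 : (s : ℤ) ∣ 2 := by
    refine ⟨(s : ℤ) ^ 2 - 3 * s + 3 - n, ?_⟩
    linarith [h2, (by ring : ((s : ℤ) ^ 2 - s + 1) * (s - 2) = s * (s ^ 2 - 3 * s + 3) - 2)]
  have h4 : (s : ℤ) ≤ 2 := Int.le_of_dvd (by norm_num) h3
  omega

end H80GQ
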