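import Pool.Agent.H80.GQ.Base

/-!
Project GQS (MP_a3aa3c_co), helper80. Module Mat: the matrices `G`, `K_x`, `H_x`.
-/

namespace H80GQ

open H60GQ Finset Matrix
open scoped Classical

universe u v

variable {P : Type u} {L : Type v} [Fintype P] [Fintype L] {I : P → L → Prop} {s t : ℕ}

/-- the matrix `G` -/
noncomputable def Gm (I : P → L → Prop) (s : ℕ) : Matrix P P ℝ := Matrix.of (fun x y => GG I s x y)

/-- the diagonal matrix `K_x` -/
noncomputable def Km (I : P → L → Prop) (s : ℕ) (x : P) : Matrix P P ℝ :=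
  Matrix.diagonal (fun b => kk I s x b)

/-- the matrix `H_x = G - G K_x G / (s (s + 1))` -/
noncomputable def Hm (I : P → L → Prop) (s : ℕ) (x : P) : Matrix P P ℝ :=
  Gm I s - (((s : ℝ) * (s + 1))⁻¹) • (Gm I s * Km I s x * Gm I s)

omit [Fintype P] [Fintype L] in
theorem Gm_apply (x y : P) : Gm I s x y = GG I s x y := rfl

omit [Fintype P] [Fintype L] in
theorem Gm_transpose : (Gm I s)ᵀ = Gm I s := by
  ext x y
  rw [Matrix.transpose_apply, Gm_apply, Gm_apply, GG_comm]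

omit [Fintype P] [Fintype L] in
theorem Km_transpose (x : P) : (Km I s x)ᵀ = Km I s x := by
  unfold Km
  rw [Matrix.diagonal_transpose]

omit [Fintype L] in
theorem Hm_transpose (x : P) : (Hm I s x)ᵀ = Hm I s x := by
  unfold Hm
  rw [Matrix.transpose_sub, Matrix.transpose_smul, Matrix.transpose_mul, Matrix.transpose_mul,
    Gm_transpose, Km_transpose, Matrix.mul_assoc]

omit [Fintype L] in
theorem Hm_comm (x y z : P) : Hm I s x y z = Hm I s x z y := by
  have := congrFun (congrFun (Hm_transpose (I := I) (s := s) x) z) y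
  rw [Matrix.transpose_apply] at this
  exact this

theorem Gm_sq (h : IsGQ I s t) (hst : (t : ℝ) = s ^ 2 - s) :
    Gm I s * Gm I s = ((s : ℝ) ^ 2 * (s + 1)) • Gm I s := by
  ext x y
  rw [Matrix.mul_apply, Matrix.smul_apply, smul_eq_mul, Gm_apply]
  have := (bal_GG h y).sum_GG h x
  rw [hst] at this
  simp only [Gm_apply]
  rw [this]; ring

theorem KGKG (h : IsGQ I s t) (hst : (t : ℝ) = s ^ 2 - s) (x : P) :
    Km I s x * Gm I s * Km I s x * Gm I s = ((s : ℝ) * (s + 1)) • (Km I s x * Gm I s) := by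
  ext a z
  rw [Matrix.smul_apply, smul_eq_mul]
  unfold Km
  rw [Matrix.diagonal_mul, Matrix.mul_assoc, Matrix.mul_assoc, Matrix.diagonal_mul]
  rw [Matrix.mul_apply]
  simp only [Matrix.diagonal_mul, Gm_apply]
  by_cases ha : Col I x a
  · have := (bal_GG h z).sum_kk h hst x a ha
    rw [this]; ring
  · have hxa : x ≠ a := by
      rintro rfl
      exact ha (h.col_refl x)
    have : kk I s x a = 0 := by
      unfold kk
      rw [ad_neg ha, dl_ne hxa]; ring
    rw [this]; ring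

theorem GKGKG (h : IsGQ I s t) (hst : (t : ℝ) = s ^ 2 - s) (x : P) :
    Gm I s * Km I s x * Gm I s * Km I s x * Gm I s =
      ((s : ℝ) * (s + 1)) • (Gm I s * Km I s x * Gm I s) := by
  have h1 : Gm I s * Km I s x * Gm I s * Km I s x * Gm I s =
      Gm I s * (Km I s x * Gm I s * Km I s x * Gm I s) := by
    simp only [Matrix.mul_assoc]
  rw [h1, KGKG h hst, Matrix.mul_smul, Matrix.mul_assoc]

theorem G_H (h : IsGQ I s t) (hst : (t : ℝ) = s ^ 2 - s) (x : P) :
    Gm I s * Hm I s x = ((s : ℝ) ^ 2 * (s + 1)) • Hm I s x := by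
  unfold Hm
  rw [Matrix.mul_sub, Matrix.mul_smul, smul_sub, Gm_sq h hst]
  congr 1
  rw [smul_comm]
  congr 1
  have h1 : Gm I s * (Gm I s * Km I s x * Gm I s) = (Gm I s * Gm I s) * Km I s x * Gm I s := by
    simp only [Matrix.mul_assoc]
  rw [h1, Gm_sq h hst, Matrix.smul_mul, Matrix.smul_mul]

theorem H_G (h : IsGQ I s t) (hst : (t : ℝ) = s ^ 2 - s) (x : P) :
    Hm I s x * Gm I s = ((s : ℝ) ^ 2 * (s + 1)) • Hm I s x := by
  have := congrArg Matrix.transpose (G_H h hst x)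
  rw [Matrix.transpose_mul, Matrix.transpose_smul, Hm_transpose, Gm_transpose] at this
  exact this

/-- `H_x` vanishes on the points collinear with `x` -/
theorem Hm_zero (h : IsGQ I s t) (hst : (t : ℝ) = s ^ 2 - s) (hs : 1 ≤ s) {x a : P}
    (ha : Col I x a) (z : P) : Hm I s x a z = 0 := by
  unfold Hm
  rw [Matrix.sub_apply, Matrix.smul_apply, smul_eq_mul, Matrix.mul_assoc, Matrix.mul_apply]
  unfold Km
  simp only [Matrix.diagonal_mul, Gm_apply]
  rw [(bal_GG h z).sum_kk h hst x a ha]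
  have h1 : (s : ℝ) ≠ 0 := by
    have : 0 < s := hs
    positivity
  have h2 : (s : ℝ) + 1 ≠ 0 := by positivity
  field_simp
  ring

theorem Hm_zero' (h : IsGQ I s t) (hst : (t : ℝ) = s ^ 2 - s) (hs : 1 ≤ s) {x a : P}
    (ha : Col I x a) (z : P) : Hm I s x z a = 0 := by
  rw [Hm_comm, Hm_zero h hst hs ha]

theorem H_K (h : IsGQ I s t) (hst : (t : ℝ) = s ^ 2 - s) (hs : 1 ≤ s) (x : P) :
    Hm I s x * Km I s x = 0 := by
  ext a b
  unfold Km
  rw [Matrix.mul_diagonal, Matrix.zero_apply]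
  by_cases hb : Col I x b
  · rw [Hm_zero' h hst hs hb, zero_mul]
  · have hxb : x ≠ b := by
      rintro rfl
      exact hb (h.col_refl x)
    have : kk I s x b = 0 := by
      unfold kk
      rw [ad_neg hb, dl_ne hxb]; ring
    rw [this, mul_zero]

theorem H_sq (h : IsGQ I s t) (hst : (t : ℝ) = s ^ 2 - s) (hs : 1 ≤ s) (x : P) :
    Hm I s x * Hm I s x = ((s : ℝ) ^ 2 * (s + 1)) • Hm I s x := by
  have h1 : Hm I s x * Hm I s x = Hm I s x * Gm I s -
      (((s : ℝ) * (s + 1))⁻¹) • (Hm I s x * Gm I s * Km I s x * Gm I s) := by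
    conv_lhs => rhs; unfold Hm
    rw [Matrix.mul_sub, Matrix.mul_smul]
    congr 2
    simp only [Matrix.mul_assoc]
  rw [h1, H_G h hst, Matrix.smul_mul, Matrix.smul_mul, H_K h hst hs, Matrix.zero_mul, smul_zero,
    smul_zero, sub_zero]

/-- the columns of `H_x` are balanced -/
theorem bal_Hm (h : IsGQ I s t) (hst : (t : ℝ) = s ^ 2 - s) (hs : 1 ≤ s) (x z : P) :
    Bal I (fun u => Hm I s x u z) := by
  intro l
  have hc : ((s : ℝ) ^ 2 * (s + 1)) ≠ 0 := by
    have : 0 < s := hs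
    positivity
  have h1 : ((s : ℝ) ^ 2 * (s + 1)) * ∑ q, io I q l * Hm I s x q z = 0 := by
    rw [Finset.mul_sum]
    have e : ∀ q, ((s : ℝ) ^ 2 * (s + 1)) * (io I q l * Hm I s x q z) =
        ∑ v, (io I q l * GG I s q v) * Hm I s x v z := by
      intro q
      have e1 := congrFun (congrFun (G_H h hst x) q) z
      rw [Matrix.smul_apply, smul_eq_mul, Matrix.mul_apply] at e1
      simp only [Gm_apply] at e1
      calc ((s : ℝ) ^ 2 * (s + 1)) * (io I q l * Hm I s x q z)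
          = io I q l * (((s : ℝ) ^ 2 * (s + 1)) * Hm I s x q z) := by ring
        _ = ∑ v, (io I q l * GG I s q v) * Hm I s x v z := by
            rw [← e1, Finset.mul_sum]
            exact Finset.sum_congr rfl (fun v _ => by ring)
    rw [Finset.sum_congr rfl (fun q _ => e q), Finset.sum_comm]
    refine Finset.sum_eq_zero (fun v _ => ?_)
    rw [← Finset.sum_mul, bal_GG h v l, zero_mul]
  exact (mul_eq_zero.1 h1).resolve_left hc

/-- the diagonal matrix of a line -/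
noncomputable def Dl (I : P → L → Prop) (l : L) : Matrix P P ℝ :=
  Matrix.diagonal (fun b => io I b l)

omit [Fintype L] in
theorem sum_Km (h : IsGQ I s t) (l : L) :
    ∑ q, io I q l • Km I s q = 1 + Dl I l := by
  ext a b
  rw [Matrix.sum_apply]
  simp only [Matrix.smul_apply, smul_eq_mul, Matrix.add_apply]
  unfold Km Dl
  by_cases hab : a = b
  · subst hab
    simp only [Matrix.diagonal_apply_eq, Matrix.one_apply_eq]
    have e : ∀ q, io I q l * kk I s q a = io I q l * ad I q a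
        - ((s : ℝ) - 2) * (dl a q * io I q l) := by
      intro q
      unfold kk
      rw [dl_comm q a]; ring
    rw [Finset.sum_congr rfl (fun q _ => e q), Finset.sum_sub_distrib, ← Finset.mul_sum, sum_dl,
      sum_io_ad h]
    ring
  · simp only [Matrix.diagonal_apply_ne _ hab, Matrix.one_apply_ne hab, mul_zero,
      Finset.sum_const_zero, add_zero]

theorem sum_Hm (h : IsGQ I s t) (hst : (t : ℝ) = s ^ 2 - s) (hs : 1 ≤ s) (l : L) :
    ∑ q, io I q l • Hm I s q =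
      Gm I s - (((s : ℝ) * (s + 1))⁻¹) • (Gm I s * Dl I l * Gm I s) := by
  have h1 : ∑ q, io I q l • Hm I s q = (∑ q, io I q l) • Gm I s -
      (((s : ℝ) * (s + 1))⁻¹) • (Gm I s * (∑ q, io I q l • Km I s q) * Gm I s) := by
    unfold Hm
    rw [Matrix.mul_sum, Matrix.sum_mul, Finset.sum_smul, Finset.smul_sum,
      ← Finset.sum_sub_distrib]
    refine Finset.sum_congr rfl (fun q _ => ?_)
    rw [smul_sub, Matrix.mul_smul, Matrix.smul_mul, smul_comm]
  rw [h1, sum_Km h, sum_io_pt h, Matrix.mul_add, Matrix.mul_one, Matrix.add_mul, Gm_sq h hst,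
    smul_add, smul_smul, ← sub_sub, ← sub_smul]
  congr 1
  have h2 : (s : ℝ) ≠ 0 := by
    have : 0 < s := hs
    positivity
  have h3 : (s : ℝ) + 1 ≠ 0 := by positivity
  have h4 : (s : ℝ) + 1 - ((s : ℝ) * (s + 1))⁻¹ * ((s : ℝ) ^ 2 * (s + 1)) = 1 := by
    field_simp
    ring
  rw [h4, one_smul]

theorem H_Dl (h : IsGQ I s t) (hst : (t : ℝ) = s ^ 2 - s) (hs : 1 ≤ s) {x : P} {l : L}
    (hx : I x l) : Hm I s x * Dl I l = 0 := by
  ext a b
  unfold Dl
  rw [Matrix.mul_diagonal, Matrix.zero_apply]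
  by_cases hb : I b l
  · rw [Hm_zero' h hst hs ⟨l, hx, hb⟩, zero_mul]
  · rw [io_neg hb, mul_zero]

theorem H_sum_H (h : IsGQ I s t) (hst : (t : ℝ) = s ^ 2 - s) (hs : 1 ≤ s) {x : P} {l : L}
    (hx : I x l) :
    Hm I s x * (∑ q, io I q l • Hm I s q) = ((s : ℝ) ^ 2 * (s + 1)) • Hm I s x := by
  rw [sum_Hm h hst hs, Matrix.mul_sub, H_G h hst, Matrix.mul_smul]
  have h1 : Hm I s x * (Gm I s * Dl I l * Gm I s) = (Hm I s x * Gm I s) * Dl I l * Gm I s := by
    simp only [Matrix.mul_assoc]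
  rw [h1, H_G h hst, Matrix.smul_mul, Matrix.smul_mul, H_Dl h hst hs hx, Matrix.zero_mul,
    smul_zero, smul_zero, sub_zero]

/-- the quadratic form of `H_x H_q H_x` -/
theorem HHH_form (h : IsGQ I s t) (hst : (t : ℝ) = s ^ 2 - s) (hs : 1 ≤ s) (x q : P)
    (v : P → ℝ) :
    ((s : ℝ) ^ 2 * (s + 1)) * (v ⬝ᵥ (Hm I s x * Hm I s q * Hm I s x) *ᵥ v) =
      ((Hm I s q * Hm I s x) *ᵥ v) ⬝ᵥ ((Hm I s q * Hm I s x) *ᵥ v) := by
  have h1 : ((s : ℝ) ^ 2 * (s + 1)) • (Hm I s x * Hm I s q * Hm I s x) =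
      (Hm I s q * Hm I s x)ᵀ * (Hm I s q * Hm I s x) := by
    rw [Matrix.transpose_mul, Hm_transpose, Hm_transpose]
    have h2 : Hm I s x * Hm I s q * (Hm I s q * Hm I s x) =
        Hm I s x * (Hm I s q * Hm I s q) * Hm I s x := by
      simp only [Matrix.mul_assoc]
    rw [h2, H_sq h hst hs, Matrix.mul_smul, Matrix.smul_mul]
  have h3 : ((s : ℝ) ^ 2 * (s + 1)) * (v ⬝ᵥ (Hm I s x * Hm I s q * Hm I s x) *ᵥ v) =
      v ⬝ᵥ (((s : ℝ) ^ 2 * (s + 1)) • (Hm I s x * Hm I s q * Hm I s x)) *ᵥ v := by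
    rw [Matrix.smul_mulVec, dotProduct_smul, smul_eq_mul]
  rw [h3, h1, ← Matrix.mulVec_mulVec, Matrix.dotProduct_mulVec, Matrix.vecMul_transpose]

theorem HHH_nonneg (h : IsGQ I s t) (hst : (t : ℝ) = s ^ 2 - s) (hs : 1 ≤ s) (x q : P)
    (v : P → ℝ) : 0 ≤ v ⬝ᵥ (Hm I s x * Hm I s q * Hm I s x) *ᵥ v := by
  have h1 := HHH_form h hst hs x q v
  have h2 : 0 ≤ ((Hm I s q * Hm I s x) *ᵥ v) ⬝ᵥ ((Hm I s q * Hm I s x) *ᵥ v) :=
    Finset.sum_nonneg (fun i _ => mul_self_nonneg _)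
  have hc : 0 < ((s : ℝ) ^ 2 * (s + 1)) := by
    have : 0 < s := hs
    positivity
  rw [← h1] at h2
  exact nonneg_of_mul_nonneg_right h2 hc

theorem HHH_zero (h : IsGQ I s t) (hst : (t : ℝ) = s ^ 2 - s) (hs : 1 ≤ s) (x q : P)
    (v : P → ℝ) (hv : v ⬝ᵥ (Hm I s x * Hm I s q * Hm I s x) *ᵥ v = 0) :
    (Hm I s q * Hm I s x) *ᵥ v = 0 := by
  have h1 := HHH_form h hst hs x q v
  rw [hv, mul_zero] at h1
  exact dotProduct_self_eq_zero.1 h1.symm

/-- `H_q H_x = 0` for collinear distinct `x`, `q` -/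
theorem H_mul_H (h : IsGQ I s t) (hst : (t : ℝ) = s ^ 2 - s) (hs : 1 ≤ s) {x q : P}
    (hxq : x ≠ q) (hc : Col I x q) : Hm I s q * Hm I s x = 0 := by
  obtain ⟨l, hx, hq⟩ := hc
  have key : ∀ v : P → ℝ, v ⬝ᵥ (Hm I s x * Hm I s q * Hm I s x) *ᵥ v = 0 := by
    intro v
    have h1 : ∑ p, io I p l * (v ⬝ᵥ (Hm I s x * Hm I s p * Hm I s x) *ᵥ v) =
        v ⬝ᵥ (Hm I s x * Hm I s x * Hm I s x) *ᵥ v := by
      have h2 := congrArg (fun M => M * Hm I s x) (H_sum_H h hst hs hx)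
      rw [Matrix.smul_mul, ← Matrix.smul_mul, ← H_sq h hst hs] at h2
      rw [← h2, Matrix.mul_sum, Matrix.sum_mul, Matrix.sum_mulVec, dotProduct_sum]
      refine Finset.sum_congr rfl (fun p _ => ?_)
      rw [Matrix.mul_smul, Matrix.smul_mul, Matrix.smul_mulVec, dotProduct_smul, smul_eq_mul]
    rw [← Finset.add_sum_erase _ _ (Finset.mem_univ x), io_pos hx, one_mul] at h1
    have h3 : ∑ p ∈ Finset.univ.erase x, io I p l *
        (v ⬝ᵥ (Hm I s x * Hm I s p * Hm I s x) *ᵥ v) = 0 := by linarith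
    have h4 := (Finset.sum_eq_zero_iff_of_nonneg (fun p _ => by
      rcases io_or (I := I) p l with e | e
      · rw [e, zero_mul]
      · rw [e, one_mul]; exact HHH_nonneg h hst hs x p v)).1 h3 q
        (Finset.mem_erase.2 ⟨fun e => hxq e.symm, Finset.mem_univ q⟩)
    rw [io_pos hq, one_mul] at h4
    exact h4
  ext a b
  have h5 := HHH_zero h hst hs x q (Pi.single b 1) (key _)
  have h6 := congrFun h5 a
  rw [Matrix.mulVec_single_one] at h6
  exact h6

end H80GQ
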