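import Pool.Agent.H80.GQ.Mat

/-!
Project GQS (MP_a3aa3c_co), helper80. Module Tens: the entries of `H_x`, the trilinear form.
-/

namespace H80GQ

open H60GQ Finset Matrix
open scoped Classical

universe u v

variable {P : Type u} {L : Type v} [Fintype P] [Fintype L] {I : P → L → Prop} {s t : ℕ}

theorem sum_ad_one (h : IsGQ I s t) (x : P) : ∑ z, ad I x z = (s : ℝ) * (t + 1) := by
  have e : ∀ z, ad I x z = ∑ l, io I x l * io I z l - ((t : ℝ) + 1) * (dl x z * 1) := by
    intro z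
    rw [sum_io_io h x z]; ring
  rw [Finset.sum_congr rfl (fun z _ => e z), Finset.sum_sub_distrib, ← Finset.mul_sum,
    sum_dl x (fun _ => (1 : ℝ)), Finset.sum_comm]
  have h3 : ∀ l, ∑ z, io I x l * io I z l = io I x l * ((s : ℝ) + 1) := by
    intro l
    rw [← Finset.mul_sum, sum_io_pt h l]
  rw [Finset.sum_congr rfl (fun l _ => h3 l), ← Finset.sum_mul, sum_io_ln h]
  ring

theorem sum_ad_ad (h : IsGQ I s t) {x y : P} (hxy : ¬ Col I x y) :
    ∑ z, ad I x z * ad I y z = (t : ℝ) + 1 := by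
  have hne : x ≠ y := by rintro rfl; exact hxy (h.col_refl x)
  have e : ∀ z, ad I x z * ad I y z = ∑ l, io I x l * (io I z l * ad I z y)
      - ((t : ℝ) + 1) * (dl x z * ad I z y) := by
    intro z
    have h1 : ad I x z = ∑ l, io I x l * io I z l - ((t : ℝ) + 1) * dl x z := by
      rw [sum_io_io h x z]; ring
    rw [h1, ad_comm y z, sub_mul, Finset.sum_mul]
    congr 1
    · exact Finset.sum_congr rfl (fun l _ => by ring)
    · ring
  rw [Finset.sum_congr rfl (fun z _ => e z), Finset.sum_sub_distrib, ← Finset.mul_sum,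
    sum_dl, Finset.sum_comm, ad_neg hxy]
  have h3 : ∀ l, ∑ z, io I x l * (io I z l * ad I z y) =
      io I x l + ((s : ℝ) - 1) * (io I x l * io I y l) := by
    intro l
    rw [← Finset.mul_sum, sum_io_ad h l]; ring
  rw [Finset.sum_congr rfl (fun l _ => h3 l), Finset.sum_add_distrib, ← Finset.mul_sum,
    sum_io_ln h, sum_io_io h, ad_neg hxy, dl_ne hne]
  ring

/-- the number of common neighbours of three points -/
noncomputable def mm (I : P → L → Prop) (x y z : P) : ℝ := ∑ b, ad I x b * ad I y b * ad I z b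

/-- the entries of `H_x` -/
theorem Hm_entry (h : IsGQ I s t) (hst : (t : ℝ) = s ^ 2 - s) (hs : 1 ≤ s) {x y z : P}
    (hy : ¬ Col I x y) (hz : ¬ Col I x z) :
    Hm I s x y z = GG I s y z + s - (((s : ℝ) + 1) / s) * mm I x y z := by
  have h1 : (s : ℝ) ≠ 0 := by
    have : 0 < s := hs
    positivity
  have h2 : (s : ℝ) + 1 ≠ 0 := by positivity
  unfold Hm
  rw [Matrix.sub_apply, Matrix.smul_apply, smul_eq_mul, Matrix.mul_assoc, Matrix.mul_apply]
  unfold Km
  simp only [Matrix.diagonal_mul, Gm_apply]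
  have e : ∀ b, GG I s y b * (kk I s x b * GG I s b z) =
      ad I x b - ((s : ℝ) + 1) * (ad I x b * ad I y b) - ((s : ℝ) + 1) * (ad I x b * ad I z b)
      + ((s : ℝ) + 1) ^ 2 * (ad I x b * ad I y b * ad I z b)
      - ((s : ℝ) - 2) * (dl x b * 1) := by
    intro b
    by_cases hb : Col I x b
    · have hyb : y ≠ b := by rintro rfl; exact hy hb
      have hzb : z ≠ b := by rintro rfl; exact hz hb
      by_cases hxb : x = b
      · subst hxb
        unfold kk GG
        rw [dl_ne hyb, dl_ne (fun e => hzb e.symm), dl_self, ad_self, ad_neg hz,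
          ad_comm y x, ad_neg hy]
        ring
      · unfold kk GG
        rw [dl_ne hyb, dl_ne (fun e => hzb e.symm), dl_ne hxb, ad_comm b z]
        have : ad I x b = 1 := ad_pos hxb hb
        rw [this]; ring
    · have hxb : x ≠ b := by rintro rfl; exact hb (h.col_refl x)
      unfold kk
      rw [ad_neg hb, dl_ne hxb]; ring
  rw [Finset.sum_congr rfl (fun b _ => e b)]
  simp only [Finset.sum_add_distrib, Finset.sum_sub_distrib, ← Finset.mul_sum]
  rw [sum_dl x (fun _ => (1 : ℝ)), sum_ad_one h, sum_ad_ad h hy, sum_ad_ad h hz]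
  unfold mm
  rw [hst]
  field_simp
  ring

theorem mm_self (h : IsGQ I s t) {x y : P} (hy : ¬ Col I x y) : mm I x y y = (t : ℝ) + 1 := by
  unfold mm
  rw [← sum_ad_ad h hy]
  refine Finset.sum_congr rfl (fun b _ => ?_)
  by_cases hb : y ≠ b ∧ Col I y b
  · rw [ad_pos hb.1 hb.2]; ring
  · have : ad I y b = 0 := by unfold ad; rw [if_neg hb]
    rw [this]; ring

omit [Fintype L] in
theorem mm_adj (h : IsGQ I s t) {x y z : P} (hy : ¬ Col I x y) (hz : ¬ Col I x z)
    (hyz : y ≠ z) (hc : Col I y z) : mm I x y z = 1 := by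
  obtain ⟨l, hyl, hzl⟩ := hc
  have hxl : ¬ I x l := fun e => hy ⟨l, e, hyl⟩
  obtain ⟨q, ⟨h1, h2⟩, hu⟩ := h.exists_unique_col hxl
  unfold mm
  rw [Finset.sum_eq_single q]
  · have hxq : x ≠ q := by rintro rfl; exact hxl h1
    have hyq : y ≠ q := by rintro rfl; exact hy h2
    have hzq : z ≠ q := by rintro rfl; exact hz h2
    rw [ad_pos hxq h2, ad_pos hyq ⟨l, hyl, h1⟩, ad_pos hzq ⟨l, hzl, h1⟩]; norm_num
  · intro b _ hb
    by_cases hxb : Col I x b
    · by_cases hyb : Col I y b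
      · by_cases hzb : Col I z b
        · have hbl : I b l := h.mem_of_col hyz hyl hzl hyb.symm hzb.symm
          exact absurd (hu b ⟨hbl, hxb⟩) hb
        · rw [ad_neg hzb, mul_zero]
      · rw [ad_neg hyb, mul_zero, zero_mul]
    · rw [ad_neg hxb, zero_mul, zero_mul]
  · intro hq; exact absurd (Finset.mem_univ q) hq

theorem Hm_self (h : IsGQ I s t) (hst : (t : ℝ) = s ^ 2 - s) (hs : 1 ≤ s) {x y : P}
    (hy : ¬ Col I x y) : Hm I s x y y = ((s : ℝ) ^ 2 - 1) / s := by
  have h1 : (s : ℝ) ≠ 0 := by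
    have : 0 < s := hs
    positivity
  rw [Hm_entry h hst hs hy hy, mm_self h hy, hst]
  unfold GG
  rw [dl_self, ad_self]
  field_simp
  ring

theorem Hm_adj (h : IsGQ I s t) (hst : (t : ℝ) = s ^ 2 - s) (hs : 1 ≤ s) {x y z : P}
    (hy : ¬ Col I x y) (hz : ¬ Col I x z) (hyz : y ≠ z) (hc : Col I y z) :
    Hm I s x y z = -((s : ℝ) + 1) / s := by
  have h1 : (s : ℝ) ≠ 0 := by
    have : 0 < s := hs
    positivity
  rw [Hm_entry h hst hs hy hz, mm_adj h hy hz hyz hc]
  unfold GG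
  rw [dl_ne hyz, ad_pos hyz hc]
  field_simp
  ring

/-- `H_x D_{N(p)} H_x = s (s + 1) H_x` for `p` adjacent to `x` -/
theorem HadH (h : IsGQ I s t) (hst : (t : ℝ) = s ^ 2 - s) (hs : 1 ≤ s) {x p : P}
    (hxp : x ≠ p) (hc : Col I x p) (a b : P) :
    ∑ u, ad I p u * (Hm I s x a u * Hm I s x u b) = (s : ℝ) * (s + 1) * Hm I s x a b := by
  have hs1 : (s : ℝ) ≠ 0 := by
    have : 0 < s := hs
    positivity
  have hs2 : (s : ℝ) + 1 ≠ 0 := by positivity
  have hcc : ((s : ℝ) ^ 2 * (s + 1)) ≠ 0 := by positivity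
  have h0 : Hm I s x * Hm I s p = 0 := H_mul_H h hst hs (fun e => hxp e.symm) hc.symm
  have h1 : Hm I s x * Hm I s p = ((s : ℝ) ^ 2 * (s + 1)) • Hm I s x -
      (((s : ℝ) * (s + 1))⁻¹) • (((s : ℝ) ^ 2 * (s + 1)) •
        (Hm I s x * Km I s p * Gm I s)) := by
    conv_lhs => rhs; unfold Hm
    rw [Matrix.mul_sub, Matrix.mul_smul, H_G h hst]
    congr 2
    have h2 : Hm I s x * (Gm I s * Km I s p * Gm I s) =
        (Hm I s x * Gm I s) * Km I s p * Gm I s := by simp only [Matrix.mul_assoc]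
    rw [h2, H_G h hst, Matrix.smul_mul, Matrix.smul_mul]
  have h3 : Hm I s x * Km I s p * Gm I s = ((s : ℝ) * (s + 1)) • Hm I s x := by
    rw [h1, smul_smul, sub_eq_zero] at h0
    have h4 := congrArg (fun M => (((s : ℝ) ^ 2 * (s + 1))⁻¹ * ((s : ℝ) * (s + 1))) • M) h0
    simp only [smul_smul] at h4
    have h5 : ((s : ℝ) ^ 2 * (s + 1))⁻¹ * ((s : ℝ) * (s + 1)) * ((s : ℝ) ^ 2 * (s + 1)) =
        (s : ℝ) * (s + 1) := by
      field_simp
    have h6 : ((s : ℝ) ^ 2 * (s + 1))⁻¹ * ((s : ℝ) * (s + 1)) *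
        (((s : ℝ) * (s + 1))⁻¹ * ((s : ℝ) ^ 2 * (s + 1))) = 1 := by
      field_simp
    rw [h5, h6, one_smul] at h4
    exact h4.symm
  have h7 : Hm I s x * Km I s p * Hm I s x = ((s : ℝ) * (s + 1)) • Hm I s x := by
    have h8 : Hm I s x * Km I s p * Gm I s * Hm I s x =
        (((s : ℝ) * (s + 1)) • Hm I s x) * Hm I s x := by rw [h3]
    rw [Matrix.mul_assoc (Hm I s x * Km I s p), G_H h hst, Matrix.mul_smul, Matrix.smul_mul,
      H_sq h hst hs, smul_comm] at h8
    exact smul_right_injective _ hcc h8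
  have h9 := congrFun (congrFun h7 a) b
  rw [Matrix.smul_apply, smul_eq_mul, Matrix.mul_assoc, Matrix.mul_apply] at h9
  unfold Km at h9
  simp only [Matrix.diagonal_mul] at h9
  rw [← h9]
  refine Finset.sum_congr rfl (fun u _ => ?_)
  unfold kk
  by_cases hpu : p = u
  · subst hpu
    rw [Hm_zero' h hst hs hc]; ring
  · rw [dl_ne hpu]; ring

theorem HH (h : IsGQ I s t) (hst : (t : ℝ) = s ^ 2 - s) (hs : 1 ≤ s) (x a b : P) :
    ∑ u, Hm I s x a u * Hm I s x u b = ((s : ℝ) ^ 2 * (s + 1)) * Hm I s x a b := by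
  have h9 := congrFun (congrFun (H_sq h hst hs x) a) b
  rw [Matrix.smul_apply, smul_eq_mul, Matrix.mul_apply] at h9
  exact h9

/-- the matrix `H_x D_{N(y)} H_x` -/
noncomputable def Wm (I : P → L → Prop) (s : ℕ) (x y a b : P) : ℝ :=
  ∑ u, ad I y u * (Hm I s x a u * Hm I s x u b)

/-- the trilinear form -/
theorem trilin (h : IsGQ I s t) (hst : (t : ℝ) = s ^ 2 - s) (hs : 1 ≤ s) {x y : P}
    (hy : ¬ Col I x y) (a b : P) :
    ∑ u, Hm I s x a u * Hm I s x u b * Hm I s x u y =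
      ((s : ℝ) + 1) * (((s : ℝ) ^ 2 - 1) * Hm I s x a b - Wm I s x y a b
        + ((s : ℝ) - 1) * (Hm I s x a y * Hm I s x y b)) := by
  have hs1 : (s : ℝ) ≠ 0 := by
    have : 0 < s := hs
    positivity
  have e : ∀ u, Hm I s x a u * Hm I s x u b * Hm I s x u y =
      (((s : ℝ) + 1) / s) * (s * (Hm I s x a u * Hm I s x u b)
        + ((s : ℝ) ^ 2 - s) * (dl y u * (Hm I s x a u * Hm I s x u b))
        - s * (ad I y u * (Hm I s x a u * Hm I s x u b))
        - ∑ p, ad I x p * ad I y p * (ad I p u * (Hm I s x a u * Hm I s x u b))) := by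
    intro u
    by_cases hu : Col I x u
    · rw [Hm_zero' h hst hs hu, zero_mul, zero_mul, mul_zero, mul_zero, mul_zero]
      simp only [mul_zero, Finset.sum_const_zero]
      ring
    · rw [Hm_entry h hst hs hu hy]
      have e2 : ∑ p, ad I x p * ad I y p * (ad I p u * (Hm I s x a u * Hm I s x u b)) =
          mm I x u y * (Hm I s x a u * Hm I s x u b) := by
        unfold mm
        rw [Finset.sum_mul]
        refine Finset.sum_congr rfl (fun p _ => ?_)
        rw [ad_comm p u]; ring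
      rw [e2]
      unfold GG
      rw [dl_comm u y, ad_comm u y]
      field_simp
      ring
  rw [Finset.sum_congr rfl (fun u _ => e u)]
  simp only [Finset.sum_add_distrib, Finset.sum_sub_distrib, ← Finset.mul_sum]
  rw [HH h hst hs, sum_dl, Finset.sum_comm]
  have e3 : ∀ p, ∑ u, ad I x p * ad I y p * (ad I p u * (Hm I s x a u * Hm I s x u b)) =
      ad I x p * ad I y p * ((s : ℝ) * (s + 1) * Hm I s x a b) := by
    intro p
    rw [← Finset.mul_sum]
    by_cases hp : x ≠ p ∧ Col I x p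
    · rw [HadH h hst hs hp.1 hp.2]
    · have : ad I x p = 0 := by unfold ad; rw [if_neg hp]
      rw [this]; ring
  rw [Finset.sum_congr rfl (fun p _ => e3 p), ← Finset.sum_mul, sum_ad_ad h hy, hst]
  unfold Wm
  field_simp
  ring

/-- `∑_{u ~ z} H(u, b)` -/
theorem sum_ad_Hm (h : IsGQ I s t) (hst : (t : ℝ) = s ^ 2 - s) (hs : 1 ≤ s) (x z b : P) :
    ∑ u, ad I z u * Hm I s x u b = -((t : ℝ) + 1) * Hm I s x z b :=
  (bal_Hm h hst hs x b).sum_ad h z

/-- `W_z(z, b)` -/
theorem Wm_self (h : IsGQ I s t) (hst : (t : ℝ) = s ^ 2 - s) (hs : 1 ≤ s) {x z : P}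
    (hz : ¬ Col I x z) (b : P) :
    Wm I s x z z b = (((s : ℝ) + 1) / s) * ((t : ℝ) + 1) * Hm I s x z b := by
  unfold Wm
  have e : ∀ u, ad I z u * (Hm I s x z u * Hm I s x u b) =
      (-((s : ℝ) + 1) / s) * (ad I z u * Hm I s x u b) := by
    intro u
    by_cases hu : Col I x u
    · rw [Hm_zero h hst hs hu]; ring
    · by_cases hzu : z ≠ u ∧ Col I z u
      · rw [Hm_adj h hst hs hz hu hzu.1 hzu.2]; ring
      · have : ad I z u = 0 := by unfold ad; rw [if_neg hzu]
        rw [this]; ring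
  rw [Finset.sum_congr rfl (fun u _ => e u), ← Finset.mul_sum, sum_ad_Hm h hst hs]
  ring

/-- `T(z, z, b) = (s + 1)^2 (s - 2) H(z, b)` -/
theorem trilin_self (h : IsGQ I s t) (hst : (t : ℝ) = s ^ 2 - s) (hs : 1 ≤ s) {x z : P}
    (hz : ¬ Col I x z) (b : P) :
    ∑ u, Hm I s x z u * Hm I s x u b * Hm I s x u z =
      ((s : ℝ) + 1) ^ 2 * ((s : ℝ) - 2) * Hm I s x z b := by
  have hs1 : (s : ℝ) ≠ 0 := by
    have : 0 < s := hs
    positivity
  rw [trilin h hst hs hz, Wm_self h hst hs hz, Hm_self h hst hs hz, hst]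
  field_simp
  ring

end H80GQ
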